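import Mathlib
import Pool.Agent.CpUniv.Defs
import Pool.Agent.CpUniv.Main
import Pool.Agent.CpUniv.Cof
import Pool.Agent.CpB.Main

set_option autoImplicit false

open Cardinal

namespace Pool.Agent.Results.MP_32ee98_gt.CpUniversal

open Pool.Agent.CpUniv CpB

/-- The space `W` (in the theorem: compact Hausdorff) is `C_p`-universal for weight `κ`: its weight
is `κ`, and for every compact Hausdorff space `X` of weight at most `κ` there is an embedding of
`C_p(X)` in `C_p(W)`, that is, a map `C(X, ℝ) → C(W, ℝ)` which is a homeomorphism onto its image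
for the topologies of pointwise convergence. -/
def IsCpUniversal (κ : Cardinal.{0}) (W : Type) [TopologicalSpace W] : Prop :=
  weight W = κ ∧ ∀ (X : Type) [TopologicalSpace X] [CompactSpace X] [T2Space X],
    weight X ≤ κ → ∃ φ : C(X, ℝ) → C(W, ℝ), IsCpEmbedding φ

/-- (1) A theorem of ZFC. If there is a `C_p`-universal compact space of weight `κ`, then for
every regular cardinal `θ` with `ℵ₁ < θ ≤ κ` (or `θ = ℵ₁ ≤ κ`, if club guessing holds on `ω₁`),
such that `θ` is one of the `ℵ_n` or `cof([μ]^{≤ ℵ₀}, ⊆) ≤ θ` for all `μ < θ`: either all sets of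
reals of size at most `θ` are meagre, or `2^{ℵ₀} ≤ θ`, or `2^{ℵ₀} ≤ cof([κ]^{≤ θ}, ⊆)`.

(2) For every cardinal `κ` there is a nondegenerate complete Boolean algebra `B` such that, with
`T = Om` the initial ordinal of `ℵ₂`, the following statements have the Boolean value `⊤` in the
universe of `B`-names: all proper initial segments of `T` are countable; there is no map from `X`
onto `Y` whenever `#X < #Y` and `ℵ₂ ≤ #Y` (so `T` is `ω₁` of this universe and all larger cardinals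
are preserved: the uncountable cardinals of this universe are the cardinals `≥ ℵ₂`); club guessing
holds on `T` (by the ladders `L δ`); every countable intersection of dense open subsets of `ω^ω`
contains one of the reals `x ξ`, `ξ ∈ T` (so there is a nonmeagre set of size at most `|T|`);
`|T| < 2^{ℵ₀}`; and if `#K ≤ κ`, there are fewer than `2^{ℵ₀}` subsets `A i` of `K`, each of size at
most `|T|`, such that every image of `T` in `K` is contained in one of them (so
`cof([K]^{≤ |T|}, ⊆) < 2^{ℵ₀}`). So all hypotheses of (1) hold there for `θ = ω₁` and all three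
conclusions fail, for all uncountable cardinals up to `κ`. -/
theorem result :
    (∀ {κ : Cardinal.{0}}, (∃ (W : Type) (_ : TopologicalSpace W) (_ : CompactSpace W)
        (_ : T2Space W), IsCpUniversal κ W) →
      ∀ {θ : Cardinal.{0}}, θ.IsRegular → θ ≤ κ →
      (ℵ₁ < θ ∨ (θ = ℵ₁ ∧ ClubGuessing (Cardinal.ord.{0} ℵ₁).ToType)) →
      ((∃ n : ℕ, θ = ℵ_ n) ∨ ∀ μ < θ, cofSub μ ℵ₀ ≤ θ) →
      θ < nonMeagre ∨ 𝔠 ≤ θ ∨ 𝔠 ≤ cofSub κ θ) ∧
    ∀ κ : Cardinal.{0}, ∃ (B : Type) (_ : CompleteBooleanAlgebra B), (⊥ : B) ≠ ⊤ ∧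
      ctblSegments B Om = ⊤ ∧ (∀ X Y : Type, #X < #Y → ℵ_ 2 ≤ #Y → noSurj B X Y = ⊤) ∧
      (∃ L : Om → ℕ → Om, (∀ δ, StrictMono (L δ)) ∧
        ∀ C : Om → B, club C ≤ ⨆ δ, ⨅ n, C (L δ n)) ∧
      (∃ x : Om → Fun B ℕ ℕ, ∀ D : ℕ → List ℕ → B,
        denseSeq D ≤ ⨆ ξ, ⨅ n, ⨆ t, D n t ⊓ ini t (x ξ)) ∧
      ltContinuum B Om = ⊤ ∧
      ∀ K : Type, #K ≤ κ → ∃ (I : Type) (A : I → Set K), (∀ i, #(A i) ≤ #Om) ∧
        ltContinuum B I = ⊤ ∧
        ∀ f : Fun B Om K, ⨆ i, ⨅ t, ⨆ k, ⨆ (_ : k ∈ A i), f.v t k = ⊤ := by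
  refine ⟨?_, model⟩
  intro κ hW θ hθ hθκ hguess hcount
  by_contra hcon
  push Not at hcon
  obtain ⟨hnon, hθc, hcov⟩ := hcon
  obtain ⟨W, i1, i2, i3, hw, huniv⟩ := hW
  have h0 : ℵ₀ < θ := by
    rcases hguess with h | ⟨h, _⟩
    · exact aleph0_lt_aleph_one.trans h
    · rw [h]; exact aleph0_lt_aleph_one
  have hCG : ClubGuessing θ.ord.ToType := by
    rcases hguess with h | ⟨h, hc⟩
    · have hno : NoMaxOrder θ.ord.ToType := Cardinal.noMaxOrder h0.le
      have hne : Nonempty θ.ord.ToType := nonempty_ord_toType hθ.ne_zero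
      apply club_guessing
      rw [Ordinal.cof_toType, hθ.cof_ord]
      exact h
    · subst h
      exact hc
  have hcnt : ∀ μ < θ, cofSub μ ℵ₀ ≤ θ := by
    rcases hcount with ⟨n, rfl⟩ | h
    · exact fun μ hμ => cofSub_aleph0_le_of_lt hμ
    · exact h
  obtain ⟨N, hN1, hN2⟩ := nonMeagre_spec
  obtain ⟨X, j1, j2, j3, hX, hno⟩ := no_injection hθ h0 hθc hcov hcnt hCG
    ⟨N, hN1, by rw [hN2]; exact hnon⟩ (h0.le.trans hθκ) W hw.le
  obtain ⟨φ, hφ⟩ := huniv X (hX.trans hθκ)
  exact hno φ hφ.continuous hφ.injective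

end Pool.Agent.Results.MP_32ee98_gt.CpUniversal
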