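import Mathlib
import Pool.Agent.CpUniv.Defs
import Pool.Agent.CpUniv.Linear
import Pool.Agent.CpB.Main

set_option autoImplicit false

open Cardinal

namespace Pool.Agent.Results.MP_32ee98_gt.LinearCpUniversal

open Pool.Agent.CpUniv CpB

/-- The space `W` (in the theorem: compact Hausdorff) is linearly `C_p`-universal for weight `κ`:
its weight is `κ`, and for every compact Hausdorff space `X` of weight at most `κ` there is a linear
embedding of `C_p(X)` in `C_p(W)`, that is, a linear map `C(X, ℝ) → C(W, ℝ)` which is a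
homeomorphism onto its image for the topologies of pointwise convergence. -/
def IsLinearlyCpUniversal (κ : Cardinal.{0}) (W : Type) [TopologicalSpace W] : Prop :=
  weight W = κ ∧ ∀ (X : Type) [TopologicalSpace X] [CompactSpace X] [T2Space X],
    weight X ≤ κ → ∃ T : C(X, ℝ) →ₗ[ℝ] C(W, ℝ), IsCpEmbedding (T : C(X, ℝ) → C(W, ℝ))

/-- (1) A theorem of ZFC. If there is a linearly `C_p`-universal compact space of weight `κ`, then
for every regular cardinal `θ` with `ℵ₁ < θ ≤ κ` (or `θ = ℵ₁ ≤ κ`, if club guessing holds on `ω₁`),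
either `2^{ℵ₀} ≤ θ` or `2^{ℵ₀} ≤ cof([κ]^{≤ θ}, ⊆)`.

(2) For every cardinal `κ` there is a nondegenerate complete Boolean algebra `B` such that, with
`T = Om` the initial ordinal of `ℵ₂`, the following statements have the Boolean value `⊤` in the
universe of `B`-names: all proper initial segments of `T` are countable; there is no map from `X`
onto `Y` whenever `#X < #Y` and `ℵ₂ ≤ #Y` (so `T` is `ω₁` of this universe and all larger cardinals
are preserved: the uncountable cardinals of this universe are the cardinals `≥ ℵ₂`); club guessing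
holds on `T` (by the ladders `L δ`); `|T| < 2^{ℵ₀}`; and if `#K ≤ κ`, there are fewer than
`2^{ℵ₀}` subsets `A i` of `K`, each of size at most `|T|`, such that every image of `T` in `K` is
contained in one of them (so `cof([K]^{≤ |T|}, ⊆) < 2^{ℵ₀}`). So all hypotheses of (1) hold there
for `θ = ω₁` and both conclusions fail, for all uncountable cardinals up to `κ`. -/
theorem result :
    (∀ {κ : Cardinal.{0}}, (∃ (W : Type) (_ : TopologicalSpace W) (_ : CompactSpace W)
        (_ : T2Space W), IsLinearlyCpUniversal κ W) →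
      ∀ {θ : Cardinal.{0}}, θ.IsRegular → θ ≤ κ →
      (ℵ₁ < θ ∨ (θ = ℵ₁ ∧ ClubGuessing (Cardinal.ord.{0} ℵ₁).ToType)) →
      𝔠 ≤ θ ∨ 𝔠 ≤ cofSub κ θ) ∧
    ∀ κ : Cardinal.{0}, ∃ (B : Type) (_ : CompleteBooleanAlgebra B), (⊥ : B) ≠ ⊤ ∧
      ctblSegments B Om = ⊤ ∧ (∀ X Y : Type, #X < #Y → ℵ_ 2 ≤ #Y → noSurj B X Y = ⊤) ∧
      (∃ L : Om → ℕ → Om, (∀ δ, StrictMono (L δ)) ∧
        ∀ C : Om → B, club C ≤ ⨆ δ, ⨅ n, C (L δ n)) ∧
      ltContinuum B Om = ⊤ ∧
      ∀ K : Type, #K ≤ κ → ∃ (I : Type) (A : I → Set K), (∀ i, #(A i) ≤ #Om) ∧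
        ltContinuum B I = ⊤ ∧
        ∀ f : Fun B Om K, ⨆ i, ⨅ t, ⨆ k, ⨆ (_ : k ∈ A i), f.v t k = ⊤ := by
  refine ⟨?_, ?_⟩
  · intro κ hW θ hθ hθκ hguess
    by_contra hcon
    push Not at hcon
    obtain ⟨hθc, hcov⟩ := hcon
    obtain ⟨W, i1, i2, i3, hw, huniv⟩ := hW
    have h0 : ℵ₀ < θ := by
      rcases hguess with h | ⟨h, _⟩
      · exact aleph0_lt_aleph_one.trans h
      · rw [h]; exact aleph0_lt_aleph_one
    have hCG : ClubGuessing θ.ord.ToType := by
      rcases hguess with h | ⟨h, hc⟩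
      · have hno : NoMaxOrder θ.ord.ToType := Cardinal.noMaxOrder h0.le
        have hne : Nonempty θ.ord.ToType := nonempty_ord_toType hθ.ne_zero
        apply club_guessing
        rw [Ordinal.cof_toType, hθ.cof_ord]
        exact h
      · subst h
        exact hc
    obtain ⟨X, j1, j2, j3, hX, hno⟩ := no_linear_embedding hθ h0 hθc hcov hCG
      (h0.le.trans hθκ) W hw.le
    obtain ⟨T, hT⟩ := huniv X (hX.trans hθκ)
    exact hno T hT
  · intro κ
    obtain ⟨B, hB, h1, h2, h3, h4, _, h5, h6⟩ := model κ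
    exact ⟨B, hB, h1, h2, h3, h4, h5, h6⟩

end Pool.Agent.Results.MP_32ee98_gt.LinearCpUniversal
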